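import Pool.Agent.U29.CY.Stm

/-! # Project CY (helper29), package BC (helper445): Borel-Cantelli over the integers -/

set_option autoImplicit false

namespace Pool.Agent.U445.CY.BC

open Finset MeasureTheory Filter Pool.Agent.U762.RP Pool.Agent.U29.CY

theorem bound (C lam : ℝ) (hC : 0 < C) (hl0 : 0 < lam) (hl1 : lam < 1) (x : ℤ) :
    C * lam ^ ⌈4 / (-Real.log lam) * Real.log (2 + |(x : ℝ)|)⌉₊ * (1 + |(x : ℝ)|) ≤
      C * (|(x : ℝ)| ^ (-(2 : ℝ)) + if x = 0 then 1 else 0) := by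
  have hlog : Real.log lam < 0 := Real.log_neg hl0 hl1
  obtain ⟨y, hy⟩ : ∃ y : ℝ, y = 2 + |(x : ℝ)| := ⟨_, rfl⟩
  have hx0 : 0 ≤ |(x : ℝ)| := abs_nonneg _
  have hy2 : 2 ≤ y := by rw [hy]; linarith
  have hy0 : 0 < y := by linarith
  rw [← hy]
  set L := ⌈4 / (-Real.log lam) * Real.log y⌉₊ with hL
  have hLc : 4 / (-Real.log lam) * Real.log y ≤ (L : ℝ) := Nat.le_ceil _
  have h1 : lam ^ L ≤ (y ^ 4)⁻¹ := by
    have e1 : lam ^ L = Real.exp ((L : ℝ) * Real.log lam) := by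
      rw [Real.exp_nat_mul, Real.exp_log hl0]
    have e2 : (y ^ 4)⁻¹ = Real.exp (-(((4 : ℕ) : ℝ) * Real.log y)) := by
      rw [Real.exp_neg, Real.exp_nat_mul, Real.exp_log hy0]
    rw [e1, e2]
    apply Real.exp_le_exp.mpr
    have h2 : (L : ℝ) * Real.log lam ≤ 4 / (-Real.log lam) * Real.log y * Real.log lam :=
      mul_le_mul_of_nonpos_right hLc hlog.le
    have h3 : 4 / (-Real.log lam) * Real.log y * Real.log lam = -(((4 : ℕ) : ℝ) * Real.log y) := by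
      have : Real.log lam ≠ 0 := hlog.ne
      push_cast
      field_simp
    rw [← h3]
    exact h2
  have h4 : (y ^ 4)⁻¹ * (1 + |(x : ℝ)|) ≤ (y ^ 2)⁻¹ := by
    rw [inv_mul_le_iff₀ (by positivity)]
    have h5 : y ^ 4 * (y ^ 2)⁻¹ = y ^ 2 := by
      field_simp
    rw [h5]
    nlinarith
  have h6 : (y ^ 2)⁻¹ ≤ |(x : ℝ)| ^ (-(2 : ℝ)) + if x = 0 then 1 else 0 := by
    by_cases hx : x = 0
    · rw [if_pos hx]
      have h7 : 0 ≤ |(x : ℝ)| ^ (-(2 : ℝ)) := Real.rpow_nonneg hx0 _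
      have h8 : (y ^ 2)⁻¹ ≤ 1 := inv_le_one_of_one_le₀ (by nlinarith)
      linarith
    · rw [if_neg hx, add_zero, Real.rpow_neg hx0, Real.rpow_two]
      have hx1 : 0 < |(x : ℝ)| := abs_pos.mpr (by exact_mod_cast hx)
      apply inv_anti₀ (by positivity)
      rw [hy]
      nlinarith
  calc C * lam ^ L * (1 + |(x : ℝ)|) ≤ C * (y ^ 4)⁻¹ * (1 + |(x : ℝ)|) :=
        mul_le_mul_of_nonneg_right (mul_le_mul_of_nonneg_left h1 hC.le) (by linarith)
    _ = C * ((y ^ 4)⁻¹ * (1 + |(x : ℝ)|)) := mul_assoc _ _ _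
    _ ≤ C * (|(x : ℝ)| ^ (-(2 : ℝ)) + if x = 0 then 1 else 0) :=
        mul_le_mul_of_nonneg_left (h4.trans h6) hC.le

theorem summ (C : ℝ) :
    Summable fun x : ℤ => C * (|(x : ℝ)| ^ (-(2 : ℝ)) + if x = 0 then 1 else 0) := by
  refine Summable.mul_left C ?_
  exact (Real.summable_abs_int_rpow (by norm_num)).add (hasSum_ite_eq 0 1).summable

theorem t_BC : S_BC := by
  intro d m r μ _ M C lam _ hC hl0 hl1 h
  have hlog : Real.log lam < 0 := Real.log_neg hl0 hl1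
  refine ⟨4 / (-Real.log lam), div_pos (by norm_num) (by linarith), ?_⟩
  refine ae_finite_setOf_mem (s := fun x : ℤ =>
    {ω | Long d m r M ⌈4 / (-Real.log lam) * Real.log (2 + |(x : ℝ)|)⌉₊ x ω}) ?_
  exact ne_top_of_le_ne_top (summ C).tsum_ofReal_ne_top
    (ENNReal.tsum_le_tsum fun x => (h _ x).trans
      (ENNReal.ofReal_le_ofReal (bound C lam hC hl0 hl1 x)))

end Pool.Agent.U445.CY.BC
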